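import Pool.Agent.Helper47.FLG.Pde

/-!
Packet STH for MP_c98eff_gt (static heat equation with nonnegative Ricci curvature).
-/

namespace Pool.Agent.Helper90.FLG

open Finset Pool.Agent.Helper47.RFn Pool.Agent.Helper47.FLG

variable {n : ℕ} {T : ℝ}

theorem hop_sum (F : FB n T) (f : Ix n → F.B) : F.Hop (∑ a, f a) = ∑ a, F.Hop (f a) := by
  unfold FB.Hop FB.Lap
  simp only [map_sum, Finset.sum_sub_distrib]
  congr 1
  exact Finset.sum_comm

theorem hop_gg (F : FB n T) (hPRD : Goal_PRD) (hBOC : Goal_BOC) (hF : F.Full) (hS : ∀ i j, F.S i j = 0)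
    (u : F.B) (hu : F.VI u) (hD : F.D u = F.Lap u) :
    F.Hop (F.gg u u) = -((2 : ℝ) • ∑ a, ∑ b, F.Ric a b * F.H a u * F.H b u) - (2 : ℝ) • F.h2 u := by
  obtain ⟨hb1, -, -, hb4⟩ := hBOC n T F hF u hu
  obtain ⟨hb5, -⟩ := hb4 hS
  have h1 : ∀ a, F.Hop (F.H a u) = - ∑ b, F.Ric a b * F.H b u := fun a => by
    unfold FB.Hop
    rw [hb5, hb1, hD]
    ring
  have h2 : ∀ a, F.Hop (F.H a u * F.H a u) =
      -((2 : ℝ) • ∑ b, F.Ric a b * F.H a u * F.H b u) - (2 : ℝ) • ∑ b, F.H b (F.H a u) ^ 2 := fun a => by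
    obtain ⟨h3, -⟩ := (hPRD n T F).1 (F.H a u) (F.H a u)
    rw [h3, h1]
    have h4 : F.gg (F.H a u) (F.H a u) = ∑ b, F.H b (F.H a u) ^ 2 :=
      Finset.sum_congr rfl fun b _ => (sq _).symm
    have h5 : F.H a u * (- ∑ b, F.Ric a b * F.H b u) = - ∑ b, F.Ric a b * F.H a u * F.H b u := by
      rw [mul_neg, Finset.mul_sum]
      exact congrArg Neg.neg (Finset.sum_congr rfl fun b _ => by ring)
    rw [h4, h5, two_smul ℝ (∑ b, F.Ric a b * F.H a u * F.H b u)]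
    ring
  have h6 : F.gg u u = ∑ a, F.H a u * F.H a u := rfl
  rw [h6, hop_sum]
  simp only [h2, Finset.sum_sub_distrib, Finset.sum_neg_distrib, ← Finset.smul_sum]
  congr 2
  unfold FB.h2
  exact Finset.sum_comm

theorem hop_lap (F : FB n T) (hBOC : Goal_BOC) (hF : F.Full) (hS : ∀ i j, F.S i j = 0)
    (u : F.B) (hu : F.VI u) (hD : F.D u = F.Lap u) : F.Hop (F.Lap u) = 0 := by
  obtain ⟨-, -, -, hb4⟩ := hBOC n T F hF u hu
  obtain ⟨-, hb6⟩ := hb4 hS
  unfold FB.Hop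
  rw [hb6, hD, sub_self]

theorem ev_h2 (F : FB n T) (z : F.Z) (t : TI T) (u : F.B) : 0 ≤ F.ev z t (F.h2 u) ∧
    F.ev z t (F.Lap u) ^ 2 ≤ ((n : ℝ) + 1) * F.ev z t (F.h2 u) := by
  have e : F.ev z t (F.h2 u) = ∑ a, ∑ b, F.ev z t (F.H a (F.H b u)) ^ 2 := by
    unfold FB.h2
    simp only [map_sum, map_pow]
  have e' : F.ev z t (F.Lap u) = ∑ a, F.ev z t (F.H a (F.H a u)) := by
    unfold FB.Lap
    simp only [map_sum]
  constructor
  · rw [e]
    exact Finset.sum_nonneg fun a _ => Finset.sum_nonneg fun b _ => sq_nonneg _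
  · have h1 : (∑ a, F.ev z t (F.H a (F.H a u))) ^ 2 ≤
        ((Finset.univ : Finset (Ix n)).card : ℝ) * ∑ a, F.ev z t (F.H a (F.H a u)) ^ 2 :=
      sq_sum_le_card_mul_sum_sq
    have h2 : ∑ a, F.ev z t (F.H a (F.H a u)) ^ 2 ≤ ∑ a, ∑ b, F.ev z t (F.H a (F.H b u)) ^ 2 :=
      Finset.sum_le_sum fun a _ => Finset.single_le_sum
        (f := fun b => F.ev z t (F.H a (F.H b u)) ^ 2) (fun b _ => sq_nonneg _) (Finset.mem_univ a)
    rw [e, e']
    refine h1.trans ?_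
    rw [Finset.card_univ, Fintype.card_fin]
    push_cast
    exact mul_le_mul_of_nonneg_left h2 (by positivity)

theorem ev_gg (F : FB n T) (z : F.Z) (t : TI T) (u : F.B) : 0 ≤ F.ev z t (F.gg u u) := by
  unfold FB.gg
  simp only [map_sum, map_mul]
  exact Finset.sum_nonneg fun a _ => mul_self_nonneg _

theorem hop_tt (F : FB n T) (hF : F.Full) : F.Hop F.tt = 1 := by
  unfold FB.Hop FB.Lap
  simp only [hF.tt_D, hF.tt_H, map_zero, Finset.sum_const_zero, sub_zero]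

theorem gg_tt (F : FB n T) (hF : F.Full) (f : F.B) : F.gg F.tt f = 0 := by
  unfold FB.gg
  simp only [hF.tt_H, zero_mul, Finset.sum_const_zero]

theorem g_STH (hMP1 : Goal_MP1) (hBOC : Goal_BOC) (hPRD : Goal_PRD) (_hVIN : Goal_VIN)
    (_hBDD : Goal_BDD) (_hBIA : Goal_BIA) : G_STH := by
  intro n hn T F hF hS hRc u hu hD hI hB
  have hG := hop_gg F hPRD hBOC hF hS u hu hD
  have hL := hop_lap F hBOC hF hS u hu hD
  have hGe : ∀ z t, F.ev z t (F.Hop (F.gg u u)) ≤ -2 * F.ev z t (F.h2 u) := fun z t => by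
    have h1 := hRc z t (fun a => F.ev z t (F.H a u))
    rw [zero_mul] at h1
    rw [hG]
    simp only [map_sub, map_neg, map_smul, smul_eq_mul, map_sum, map_mul]
    linarith
  have h1 : ∀ z (t : TI T), F.ev z t (F.gg u u) ≤ 1 := fun z t => by
    have h := hMP1 n T F hF.toBase (1 - F.gg u u) 0 t 0 1 le_rfl t.2.2 le_rfl one_pos
      (fun ε hε => by
        obtain ⟨t0, h0, -, h2⟩ := hI ε hε
        refine ⟨t0, h0, fun z t _ ht => ?_⟩
        have h3 := h2 z t (by linarith)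
        rw [map_neg] at h3
        rw [map_sub, map_one]
        linarith)
      (fun z t _ _ _ _ _ => by
        obtain ⟨-, -, h3, -, -⟩ := (hPRD n T F).1 (1 : F.B) (F.gg u u)
        obtain ⟨-, -, -, h4, -⟩ := (hPRD n T F).1 (1 : F.B) (F.gg u u)
        have h5 := (h4 1).2
        rw [map_one] at h5
        rw [h3, h5, zero_mul, map_sub, map_zero]
        linarith [hGe z t, (ev_h2 F z t u).1])
      z t t.2.1 le_rfl
    rw [map_sub, map_one] at h
    linarith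
  intro z t
  refine ⟨h1 z t, ?_⟩
  set c : ℝ := ((n : ℝ) + 1) / 2 with hc
  have hc0 : 0 ≤ c := by positivity
  have hev : ∀ z (t : TI T), F.ev z t (algebraMap ℝ F.B c - (F.tt * F.Lap u ^ 2 + c • F.gg u u)) =
      c - (t * F.ev z t (F.Lap u) ^ 2 + c * F.ev z t (F.gg u u)) := fun z t => by
    simp only [map_sub, map_add, map_mul, map_pow, map_smul, smul_eq_mul, hF.tt_ev, AlgHom.commutes]
    rfl
  have hhop : F.Hop (algebraMap ℝ F.B c - (F.tt * F.Lap u ^ 2 + c • F.gg u u)) =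
      - (F.Lap u ^ 2 - (2 : ℝ) • (F.tt * F.gg (F.Lap u) (F.Lap u)) + c • F.Hop (F.gg u u)) := by
    obtain ⟨-, -, h3, h4, -⟩ := (hPRD n T F).1 (algebraMap ℝ F.B c) (F.tt * F.Lap u ^ 2 + c • F.gg u u)
    obtain ⟨-, h6, -, -, -⟩ := (hPRD n T F).1 (F.tt * F.Lap u ^ 2) (c • F.gg u u)
    obtain ⟨h7, -, -, -, -⟩ := (hPRD n T F).1 F.tt (F.Lap u ^ 2)
    obtain ⟨-, -, -, -, h8⟩ := (hPRD n T F).1 (F.Lap u) (F.Lap u)
    obtain ⟨-, -, -, h9, -⟩ := (hPRD n T F).1 (F.gg u u) (F.gg u u)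
    rw [h3, (h4 c).2, h6, h7, h8, (h9 c).1, hL, hop_tt F hF, gg_tt F hF]
    simp only [mul_zero, smul_zero, zero_sub, sub_zero, mul_one, mul_neg, mul_smul_comm]
    ring
  have h2 := hMP1 n T F hF.toBase (algebraMap ℝ F.B c - (F.tt * F.Lap u ^ 2 + c • F.gg u u)) 0 t 0 1 le_rfl
      t.2.2 le_rfl one_pos
      (fun ε hε => by
        obtain ⟨C, t0, h0, -, h2⟩ := hB
        refine ⟨min t0 (ε / (C ^ 2 + 1)), lt_min h0 (by positivity), fun z t ht0 ht => ?_⟩
        have h3 := h2 z t (lt_of_lt_of_le (by linarith) (min_le_left _ _))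
        have h4 : (t : ℝ) < ε / (C ^ 2 + 1) := lt_of_lt_of_le (by linarith) (min_le_right _ _)
        rw [hev]
        have h5 : F.ev z t (F.Lap u) ^ 2 ≤ C ^ 2 := by
          rw [← sq_abs (F.ev z t (F.Lap u))]
          exact pow_le_pow_left₀ (abs_nonneg _) h3 2
        have h6 : (t : ℝ) * (C ^ 2 + 1) < ε := (lt_div_iff₀ (by positivity)).1 h4
        have h7 : (t : ℝ) * F.ev z t (F.Lap u) ^ 2 ≤ t * C ^ 2 := mul_le_mul_of_nonneg_left h5 ht0.le
        have h8 : c * F.ev z t (F.gg u u) ≤ c * 1 := mul_le_mul_of_nonneg_left (h1 z t) hc0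
        nlinarith)
      (fun z t ht0 _ _ _ _ => by
        rw [hhop, zero_mul]
        simp only [map_neg, map_sub, map_add, map_mul, map_pow, map_smul, smul_eq_mul, hF.tt_ev]
        have h3 := hGe z t
        have h4 := (ev_h2 F z t u).2
        have h5 := ev_gg F z t (F.Lap u)
        have h6 : c * F.ev z t (F.Hop (F.gg u u)) ≤ c * (-2 * F.ev z t (F.h2 u)) :=
          mul_le_mul_of_nonneg_left h3 hc0
        have h7 : 0 ≤ (t : ℝ) * F.ev z t (F.gg (F.Lap u) (F.Lap u)) := mul_nonneg ht0.le h5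
        rw [hc] at h6
        rw [hc]
        nlinarith)
      z t t.2.1 le_rfl
  rw [hev] at h2
  have h3 := mul_nonneg hc0 (ev_gg F z t u)
  have h4 : c ≤ (n : ℝ) + 1 := by
    rw [hc]
    have : (0 : ℝ) ≤ n := Nat.cast_nonneg n
    linarith
  linarith

end Pool.Agent.Helper90.FLG
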