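import Pool.Agent.Helper47.FLG.Alg

/-!
Packet R4T for MP_c98eff_gt (toolbox for the multilinear form of a curvature tensor).
-/

namespace Pool.Agent.Helper90.FLG

open Finset Pool.Agent.Helper47.RFn Pool.Agent.Helper47.FLG

variable {n : ℕ}

theorem p12 (F : Fin n → Fin n → Fin n → Fin n → ℝ) :
    ∑ i, ∑ j, ∑ k, ∑ l, F i j k l = ∑ i, ∑ j, ∑ k, ∑ l, F j i k l := Finset.sum_comm

theorem p23 (F : Fin n → Fin n → Fin n → Fin n → ℝ) :
    ∑ i, ∑ j, ∑ k, ∑ l, F i j k l = ∑ i, ∑ j, ∑ k, ∑ l, F i k j l :=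
  Finset.sum_congr rfl fun _ _ => Finset.sum_comm

theorem p34 (F : Fin n → Fin n → Fin n → Fin n → ℝ) :
    ∑ i, ∑ j, ∑ k, ∑ l, F i j k l = ∑ i, ∑ j, ∑ k, ∑ l, F i j l k :=
  Finset.sum_congr rfl fun _ _ => Finset.sum_congr rfl fun _ _ => Finset.sum_comm

theorem sum4_congr {F G : Fin n → Fin n → Fin n → Fin n → ℝ} (h : ∀ i j k l, F i j k l = G i j k l) :
    ∑ i, ∑ j, ∑ k, ∑ l, F i j k l = ∑ i, ∑ j, ∑ k, ∑ l, G i j k l :=
  Finset.sum_congr rfl fun i _ => Finset.sum_congr rfl fun j _ => Finset.sum_congr rfl fun k _ =>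
    Finset.sum_congr rfl fun l _ => h i j k l

theorem sum4_neg (F : Fin n → Fin n → Fin n → Fin n → ℝ) :
    ∑ i, ∑ j, ∑ k, ∑ l, (- F i j k l) = - ∑ i, ∑ j, ∑ k, ∑ l, F i j k l := by
  simp only [Finset.sum_neg_distrib]

theorem sum4_add (F G : Fin n → Fin n → Fin n → Fin n → ℝ) :
    ∑ i, ∑ j, ∑ k, ∑ l, (F i j k l + G i j k l) =
      ∑ i, ∑ j, ∑ k, ∑ l, F i j k l + ∑ i, ∑ j, ∑ k, ∑ l, G i j k l := by
  simp only [Finset.sum_add_distrib]

theorem sum4_mul (t : ℝ) (F : Fin n → Fin n → Fin n → Fin n → ℝ) :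
    ∑ i, ∑ j, ∑ k, ∑ l, (t * F i j k l) = t * ∑ i, ∑ j, ∑ k, ∑ l, F i j k l := by
  simp only [Finset.mul_sum]

theorem lin (R : T4 n) (a a' b c d : Fin n → ℝ) (s t : ℝ) :
    R4 R (fun i => s * a i + t * a' i) b c d = s * R4 R a b c d + t * R4 R a' b c d ∧
    R4 R b (fun i => s * a i + t * a' i) c d = s * R4 R b a c d + t * R4 R b a' c d ∧
    R4 R b c (fun i => s * a i + t * a' i) d = s * R4 R b c a d + t * R4 R b c a' d ∧
    R4 R b c d (fun i => s * a i + t * a' i) = s * R4 R b c d a + t * R4 R b c d a' := by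
  unfold R4
  refine ⟨?_, ?_, ?_, ?_⟩
  all_goals
    rw [← sum4_mul, ← sum4_mul, ← sum4_add]
    exact sum4_congr fun i j k l => by ring

theorem lin2 (R S : T4 n) (a b c d : Fin n → ℝ) (t : ℝ) :
    R4 (R + S) a b c d = R4 R a b c d + R4 S a b c d ∧ R4 (t • R) a b c d = t * R4 R a b c d := by
  unfold R4
  constructor
  · rw [← sum4_add]
    exact sum4_congr fun i j k l => by
      simp only [Pi.add_apply]
      ring
  · rw [← sum4_mul]
    exact sum4_congr fun i j k l => by
      simp only [Pi.smul_apply, smul_eq_mul]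
      ring

theorem asy12 (R : T4 n) (hR : IsCurv R) (a b c d : Fin n → ℝ) : R4 R a b c d = - R4 R b a c d := by
  unfold R4
  rw [p12, ← sum4_neg]
  exact sum4_congr fun i j k l => by
    rw [hR.a12 j i k l]
    ring

theorem asy34 (R : T4 n) (hR : IsCurv R) (a b c d : Fin n → ℝ) : R4 R a b c d = - R4 R a b d c := by
  unfold R4
  rw [p34, ← sum4_neg]
  exact sum4_congr fun i j k l => by
    rw [hR.a34 i j l k]
    ring

theorem psy (R : T4 n) (hR : IsCurv R) (a b c d : Fin n → ℝ) : R4 R a b c d = R4 R c d a b := by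
  unfold R4
  rw [p23, p12, p34, p23]
  exact sum4_congr fun i j k l => by
    rw [hR.pair k l i j]
    ring

theorem bia (R : T4 n) (hR : IsCurv R) (a b c d : Fin n → ℝ) :
    R4 R a b c d + R4 R b c a d + R4 R c a b d = 0 := by
  have h2 : R4 R b c a d = ∑ i, ∑ j, ∑ k, ∑ l, R j k i l * a i * b j * c k * d l := by
    unfold R4
    rw [p23, p12]
    exact sum4_congr fun i j k l => by ring
  have h3 : R4 R c a b d = ∑ i, ∑ j, ∑ k, ∑ l, R k i j l * a i * b j * c k * d l := by
    unfold R4
    rw [p12, p23]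
    exact sum4_congr fun i j k l => by ring
  rw [h2, h3]
  unfold R4
  rw [← sum4_add, ← sum4_add]
  have : ∀ i j k l : Fin n, R i j k l * a i * b j * c k * d l + R j k i l * a i * b j * c k * d l +
      R k i j l * a i * b j * c k * d l = 0 := fun i j k l => by
    have h := hR.bian i j k l
    have e : R i j k l * a i * b j * c k * d l + R j k i l * a i * b j * c k * d l +
      R k i j l * a i * b j * c k * d l = (R i j k l + R j k i l + R k i j l) * (a i * b j * c k * d l) := by
      ring
    rw [e, h, zero_mul]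
  simp only [this, Finset.sum_const_zero]

theorem k2 (R : T4 n) (u v : Fin n → ℝ) : K2 R u v = R4 R u v u v := rfl

theorem Id4_apply (i j k l : Fin n) : Id4 n i j k l =
    (if i = k then 1 else 0) * (if j = l then 1 else 0) - (if i = l then 1 else 0) * (if j = k then 1 else 0) := by
  unfold Id4 wdg
  simp only [Matrix.one_apply]
  ring

theorem r4id (a b c d : Fin n → ℝ) : R4 (Id4 n) a b c d = dot a c * dot b d - dot a d * dot b c := by
  have h0 : ∀ i j k : Fin n, ∑ l, Id4 n i j k l * a i * b j * c k * d l =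
      (if i = k then a i * b j * c k * d j else 0) - (if j = k then a i * b j * c k * d i else 0) :=
    fun i j k => by
      simp only [Id4_apply, sub_mul, Finset.sum_sub_distrib]
      congr 1
      · by_cases h : i = k
        · simp only [h, if_true, one_mul, ite_mul, zero_mul, Finset.sum_ite_eq, Finset.mem_univ]
        · simp only [h, if_false, zero_mul, Finset.sum_const_zero]
      · by_cases h : j = k
        · simp only [h, if_true, mul_one, ite_mul, zero_mul, one_mul, Finset.sum_ite_eq, Finset.mem_univ]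
        · simp only [h, if_false, zero_mul, mul_zero, Finset.sum_const_zero]
  have h : ∀ i j : Fin n, ∑ k, ∑ l, Id4 n i j k l * a i * b j * c k * d l =
      (a i * c i) * (b j * d j) - (a i * d i) * (b j * c j) := fun i j => by
    simp only [h0, Finset.sum_sub_distrib, Finset.sum_ite_eq, Finset.mem_univ, if_true]
    ring
  unfold R4 dot
  simp only [h, Finset.sum_sub_distrib, Finset.sum_mul_sum]

theorem dcomm (u v : Fin n → ℝ) : dot u v = dot v u := Finset.sum_congr rfl fun _ _ => mul_comm _ _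

theorem nrmd (u : Fin n → ℝ) : nrm u = dot u u := Finset.sum_congr rfl fun _ _ => sq _

theorem r4sb1 (R : T4 n) (b c d : Fin n → ℝ) (m : Fin n) :
    R4 R (sb m) b c d = ∑ j, ∑ k, ∑ l, R m j k l * b j * c k * d l := by
  unfold R4 sb
  have : ∀ i : Fin n, ∑ j, ∑ k, ∑ l, R i j k l * (if m = i then (1 : ℝ) else 0) * b j * c k * d l =
      if m = i then ∑ j, ∑ k, ∑ l, R i j k l * b j * c k * d l else 0 := fun i => by
    by_cases h : m = i
    · simp only [h, if_true, mul_one]
    · simp only [h, if_false, mul_zero, zero_mul, Finset.sum_const_zero]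
  simp only [this, Finset.sum_ite_eq, Finset.mem_univ, if_true]

theorem r4sb2 (R : T4 n) (a c d : Fin n → ℝ) (m : Fin n) :
    R4 R a (sb m) c d = ∑ i, ∑ k, ∑ l, R i m k l * a i * c k * d l := by
  unfold R4 sb
  refine Finset.sum_congr rfl fun i _ => ?_
  have : ∀ j : Fin n, ∑ k, ∑ l, R i j k l * a i * (if m = j then (1 : ℝ) else 0) * c k * d l =
      if m = j then ∑ k, ∑ l, R i j k l * a i * c k * d l else 0 := fun j => by
    by_cases h : m = j
    · simp only [h, if_true, mul_one]
    · simp only [h, if_false, mul_zero, zero_mul, Finset.sum_const_zero]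
  simp only [this, Finset.sum_ite_eq, Finset.mem_univ, if_true]

theorem r4sb3 (R : T4 n) (a b d : Fin n → ℝ) (m : Fin n) :
    R4 R a b (sb m) d = ∑ i, ∑ j, ∑ l, R i j m l * a i * b j * d l := by
  unfold R4 sb
  refine Finset.sum_congr rfl fun i _ => Finset.sum_congr rfl fun j _ => ?_
  have : ∀ k : Fin n, ∑ l, R i j k l * a i * b j * (if m = k then (1 : ℝ) else 0) * d l =
      if m = k then ∑ l, R i j k l * a i * b j * d l else 0 := fun k => by
    by_cases h : m = k
    · simp only [h, if_true, mul_one]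
    · simp only [h, if_false, mul_zero, zero_mul, Finset.sum_const_zero]
  simp only [this, Finset.sum_ite_eq, Finset.mem_univ, if_true]

theorem r4sb4 (R : T4 n) (a b c : Fin n → ℝ) (m : Fin n) :
    R4 R a b c (sb m) = ∑ i, ∑ j, ∑ k, R i j k m * a i * b j * c k := by
  unfold R4 sb
  refine Finset.sum_congr rfl fun i _ => Finset.sum_congr rfl fun j _ => Finset.sum_congr rfl fun k _ => ?_
  have : ∀ l : Fin n, R i j k l * a i * b j * c k * (if m = l then (1 : ℝ) else 0) =
      if m = l then R i j k l * a i * b j * c k else 0 := fun l => by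
    by_cases h : m = l
    · simp only [h, if_true, mul_one]
    · simp only [h, if_false, mul_zero]
  simp only [this, Finset.sum_ite_eq, Finset.mem_univ, if_true]

theorem r4sb (R : T4 n) (i j k l : Fin n) : R4 R (sb i) (sb j) (sb k) (sb l) = R i j k l := by
  rw [r4sb1]
  simp only [sb, mul_ite, mul_one, mul_zero, Finset.sum_ite_eq, Finset.mem_univ, if_true, ite_mul, zero_mul,
    Finset.sum_const_zero]

theorem expn (R : T4 n) (a b c d : Fin n → ℝ) : R4 R a b c d = ∑ j, a j * R4 R (sb j) b c d ∧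
    R4 R a b c d = ∑ j, b j * R4 R a (sb j) c d ∧ R4 R a b c d = ∑ j, c j * R4 R a b (sb j) d ∧
    R4 R a b c d = ∑ j, d j * R4 R a b c (sb j) := by
  simp only [r4sb1, r4sb2, r4sb3, r4sb4, Finset.mul_sum]
  unfold R4
  refine ⟨?_, ?_, ?_, ?_⟩
  · exact sum4_congr fun i j k l => by ring
  · rw [p12]
    exact sum4_congr fun i j k l => by ring
  · rw [p23, p12]
    exact sum4_congr fun i j k l => by ring
  · rw [p34, p23, p12]
    exact sum4_congr fun i j k l => by ring

theorem qf0 (R : T4 n) (a b c d : Fin n → ℝ) : qf R (cv a b) (cv c d) =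
    R4 R a c a c + R4 R a d a d + R4 R b c b c + R4 R b d b d + -R4 R b d a c + R4 R b c a d + R4 R a d b c
      + -R4 R a c b d := by
  unfold qf R4
  simp only [← sum4_neg, ← sum4_add, Complex.re_sum]
  refine sum4_congr fun i j k l => ?_
  simp only [cv, star_add, star_mul', Complex.star_def, Complex.conj_ofReal, Complex.conj_I, Complex.mul_re,
    Complex.mul_im, Complex.add_re, Complex.add_im, Complex.ofReal_re, Complex.ofReal_im, Complex.I_re,
    Complex.I_im, Complex.neg_re, Complex.neg_im]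
  ring

theorem g_R4T : G_R4T := by
  intro n
  refine ⟨lin, lin2, fun R hR a b c d => ⟨asy12 R hR a b c d, asy34 R hR a b c d, psy R hR a b c d,
    bia R hR a b c d⟩, k2, fun R hR u v => ?_, r4id, fun u v => ?_, fun u v => ?_, nrmd, r4sb, expn,
    fun R hR a b c d => ?_, fun R v => ?_⟩
  · rw [k2, k2, asy12 R hR, asy34 R hR, neg_neg]
  · rw [k2, r4id, wd, nrmd, nrmd, dcomm v u, sq]
  · have h := Finset.sum_mul_sq_le_sq_mul_sq Finset.univ u v
    unfold wd dot nrm
    linarith
  · rw [qf0, k2, k2, k2, k2]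
    have h1 := psy R hR b d a c
    have h2 := psy R hR b c a d
    have h3 := bia R hR a b c d
    have h4 := asy12 R hR c a b d
    linarith
  · have h : ∀ m : Fin n, R4 R v (sb m) v (sb m) = ∑ i, ∑ k, R i m k m * v i * v k := fun m => by
      rw [r4sb4]
      refine Finset.sum_congr rfl fun i _ => ?_
      simp only [sb, mul_ite, mul_one, mul_zero, ite_mul, zero_mul]
      rw [Finset.sum_comm]
      simp only [Finset.sum_ite_eq, Finset.mem_univ, if_true]
    simp only [h]
    unfold rq Ric
    simp only [Finset.sum_mul]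
    refine Eq.trans ?_ Finset.sum_comm
    refine Finset.sum_congr rfl fun i _ => ?_
    exact Finset.sum_comm

end Pool.Agent.Helper90.FLG
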