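import Pool.Agent.Helper47.FLG.Fun
import Pool.Agent.Helper68.RFn.CONP

/-!
Packet CNF for MP_c98eff_gt (the maximum principle results at the function level, quarter pinched flags).
Adapted from the packet CON by helper68.
-/

set_option autoImplicit false

open Finset Pool.Agent.Helper47.RFn Pool.Agent.Helper73.RFn Pool.Agent.Helper47.FLG
  Pool.Agent.Helper68.RFn.CON

namespace Pool.Agent.Helper90.FLG

theorem p_CNF (MOD : Goal_MOD) (FLB : Goal_FLB) (NRO : Goal_NRO) (NIN : G_NIN) (DCT : G_DCT)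
    (INVF : G_INVF) (NRF : G_NRF) (P2 : Goal_P2) (P3 : Goal_P3) (S2 : Goal_S2) (S3 : Goal_S3)
    (FJS : FjsStmt) (FHM : FhmStmt) : CnfStmt := by
  intro n hn ε1 hε1 A0 hA0
  obtain ⟨CN, hCN, hINVF⟩ := INVF n hn
  obtain ⟨σ, ε, hσ0, hσ1, hε, hP2⟩ := P2 n hn
  obtain ⟨A1, hA1, hNRF⟩ := NRF n hn ε1 hε1 A0 hA0 ε hε
  obtain ⟨K0, hK0, hP2⟩ := hP2 CN A1 hCN hA1
  obtain ⟨C1, Y0, hC1, hY0, hP3⟩ := P3 n hn CN K0 σ hCN hK0 hσ0 hσ1
  obtain ⟨C2, hC2, hS3⟩ := S3 n hn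
  set C : ℝ := 1 + CN + K0 + C1 + Y0 + C2 + ((n : ℝ) + 1) ^ 4 * (CN + 2) ^ 2 with hC
  have hE4 : 0 ≤ ((n : ℝ) + 1) ^ 4 * (CN + 2) ^ 2 := by positivity
  refine ⟨C, σ, by linarith, hσ0, hσ1, ?_⟩
  intro T l0 A θ hT hl0 hfl hin hqp
  have hsub : Set.Ioo 0 T ⊆ Set.Ico 0 T := Set.Ioo_subset_Ico_self
  obtain ⟨M, hM⟩ := MOD n T hT
  obtain ⟨hA, hθ, -⟩ := FJS n T _ A θ hT hsub hfl
  have hA' : MJ T A := fun i j => ⟨(hA i j).cd, (hA i j).hom⟩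
  have hθ' : MJ T θ := fun i j => ⟨(hθ i j).cd, (hθ i j).hom⟩
  obtain ⟨-, hFull, hRF, hdic, hdicR, -, -⟩ := FLB n T hT M hM _ A θ hsub hfl hA' hθ'
  obtain ⟨hbdR, -, hbdg, -, -, -⟩ := NRO n T hT M hM A θ hfl hA' hθ'
  have hini := NIN n T hT M hM A θ hfl hA' hθ' l0 hin
  obtain ⟨hdct, -⟩ := DCT n T hT M hM _ A θ hsub hfl hA' hθ'
  obtain ⟨fh1, fh2⟩ := FHM n
  obtain ⟨hfrm, hfR, -, hfl', -⟩ := fh2 _ A θ hfl
  set F := M.flB A θ with hFdef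
  have hbd : ∀ i j k l, F.Bd0 (F.R i j k l) := fun i j k l => hbdR [] i j k l
  obtain ⟨hCone, hFGa⟩ := hINVF T F hFull hRF hbd l0 hl0 hini
  have hQP : QP F ε1 A0 := by
    intro z t ι hι hA z' w'
    have hlam : F.ev z t F.lam = lamf (A t) (θ t) (M.pt z) := (hdic z t).1
    have hpt0 : M.pt z ≠ 0 := fun h0 => by
      have := hM.ptn z
      rw [h0, norm_zero] at this
      exact zero_ne_one this
    have h1 := ((hdct z t (fun r => ∀ z' w' : Fin n → ℂ,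
      ε1 * F.ev z t F.lam * qf (Id4 n) z' w' ≤ qf r z' w')).1).2
    refine h1 (fun ι' hι' z' w' => ?_) ι hι z' w'
    rw [hlam]
    exact hqp t t.2.1 t.2.2 (M.pt z) hpt0 (by rw [← hlam]; exact hA) ι' hι' z' w'
  have hRound := hNRF T F hFull hRF hbd (fun z t => lt_of_lt_of_le hl0 (hCone z t).1) hFGa hQP
  have hP2' := hP2 T F hFull hRF l0 hl0 hbd hCone hRound
  have hP3' := hP3 T F hFull hRF l0 hl0 hbd hbdg hCone hP2'
  -- smoothness in space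
  have hsm : ∀ t, 0 ≤ t → t < T → Sm (lamf (A t) (θ t)) ∧ Sm (e2f (A t) (θ t)) ∧
      Sm (ggf (A t) (lamf (A t) (θ t)) (lamf (A t) (θ t))) ∧
      (∀ a b c d, Sm (Rf (A t) (θ t) a b c d)) ∧
      ∀ x, x ≠ 0 → ∑ a, nfc (A t) a x ^ 2 = 1 := by
    intro t h0 h1
    obtain ⟨-, -, -, k1, -, k2, -, k3, -, -, k4, k5, -⟩ := fh1 (A t) (θ t) (hfrm t ⟨h0, h1⟩)
    exact ⟨k2, k3, (k4 _ _ k2 k2).1, k1, k5⟩
  -- points of the bundle over `x`
  have hpt : ∀ x : EE n, x ≠ 0 → ∃ z : M.Z, M.pt z = (‖x‖⁻¹ : ℝ) • x ∧ M.fr z = one := by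
    intro x hx
    refine hM.surj _ _ ?_ (one_mem n)
    rw [norm_smul, norm_inv, norm_norm, inv_mul_cancel₀ (norm_ne_zero_iff.2 hx)]
  have hr : ∀ x : EE n, x ≠ 0 → 0 < ‖x‖⁻¹ := fun x hx => inv_pos.2 (norm_pos_iff.2 hx)
  have hdx : ∀ x : EE n, x ≠ 0 → ∃ z : F.Z, ∀ (t : ℝ) (h0 : 0 < t) (h1 : t < T),
      F.ev z ⟨t, h0, h1⟩ F.lam = lamf (A t) (θ t) x ∧
      F.ev z ⟨t, h0, h1⟩ F.e2 = e2f (A t) (θ t) x ∧
      F.ev z ⟨t, h0, h1⟩ (F.gg F.lam F.lam) =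
        ggf (A t) (lamf (A t) (θ t)) (lamf (A t) (θ t)) x ∧
      ∀ a b c d, F.ev z ⟨t, h0, h1⟩ (F.R a b c d) = Rf (A t) (θ t) a b c d x := by
    intro x hx
    obtain ⟨z, hz1, hz2⟩ := hpt x hx
    refine ⟨z, fun t h0 h1 => ?_⟩
    obtain ⟨s1, s2, s3, s4, -⟩ := hsm t h0.le h1
    obtain ⟨d1, d2, d3⟩ := hdic z ⟨t, h0, h1⟩
    refine ⟨?_, ?_, ?_, ?_⟩
    · rw [d1, hz1]
      exact s1.hom _ x (hr x hx)
    · rw [d2, hz1]
      exact s2.hom _ x (hr x hx)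
    · rw [d3, hz1]
      exact s3.hom _ x (hr x hx)
    · intro a b c d
      rw [hdicR z ⟨t, h0, h1⟩ a b c d, hz1, hz2]
      have e1 : ∀ i j k l, Rf (A t) (θ t) i j k l ((‖x‖⁻¹ : ℝ) • x) = Rf (A t) (θ t) i j k l x :=
        fun i j k l => (s4 i j k l).hom _ x (hr x hx)
      show ∑ i, ∑ j, ∑ k, ∑ l, one a i * one b j * one c k * one d l *
        Rf (A t) (θ t) i j k l ((‖x‖⁻¹ : ℝ) • x) = _
      simp only [e1, mul_assoc, ← Finset.mul_sum, sum_one]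
  -- values at all points of the bundle
  have hzv : ∀ (z : F.Z) (t : TI T), ∃ x : EE n, x ≠ 0 ∧ F.ev z t F.lam = lamf (A t) (θ t) x ∧
      F.ev z t F.e2 = e2f (A t) (θ t) x := by
    intro z t
    refine ⟨M.pt z, ?_, (hdic z t).1, (hdic z t).2.1⟩
    intro h0
    have := hM.ptn z
    rw [h0, norm_zero] at this
    exact zero_ne_one this
  have hp1 : ∀ t, 0 < t → t < T → ∀ x, x ≠ 0 → l0 ≤ lamf (A t) (θ t) x ∧
      ∀ a b c d, |Rf (A t) (θ t) a b c d x| ≤ CN * lamf (A t) (θ t) x := by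
    intro t h0 h1 x hx
    obtain ⟨z, hz⟩ := hdx x hx
    obtain ⟨z1, -, -, z4⟩ := hz t h0 h1
    obtain ⟨c1, c2⟩ := hCone z ⟨t, h0, h1⟩
    rw [z1] at c1 c2
    refine ⟨c1, fun a b c d => ?_⟩
    rw [← z4]
    exact c2 a b c d
  refine ⟨?_, ?_, ?_, ?_, ?_⟩
  · intro t h0 h1 x hx
    have key : l0 ≤ lamf (A t) (θ t) x ∧
        ∀ a b c d, |Rf (A t) (θ t) a b c d x| ≤ CN * lamf (A t) (θ t) x := by
      rcases h0.eq_or_lt with h0 | h0
      · subst h0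
        exact ⟨(hin x hx).1, fun a b c d => limit_le hT (hfR a b c d) hfl' CN hx
          fun t h0 h1 => (hp1 t h0 h1 x hx).2 a b c d⟩
      · exact hp1 t h0 h1 x hx
    refine ⟨key.1, fun a b c d => (key.2 a b c d).trans ?_⟩
    exact mul_le_mul_of_nonneg_right (by linarith) (hl0.le.trans key.1)
  · intro t h0 h1 x hx
    obtain ⟨q1, q2⟩ := hp1 t h0 h1 x hx
    refine (e2f_le hn (A t) (θ t) x ((hsm t h0.le h1).2.2.2.2 x hx) CN hCN (hl0.le.trans q1)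
      q2).trans ?_
    exact mul_le_mul_of_nonneg_right (by linarith) (sq_nonneg _)
  · intro t Q h0 h1 hQ hY x hx
    obtain ⟨z, hz⟩ := hdx x hx
    obtain ⟨z1, z2, z3, -⟩ := hz t h0 h1
    have h := hP3' ⟨t, h0, h1⟩ Q (fun z => by
      obtain ⟨y, hy, hy1, -⟩ := hzv z ⟨t, h0, h1⟩
      rw [hy1]
      exact hQ y hy) (by
        show Y0 ≤ t * Q
        linarith) z
    rw [z2, z3] at h
    have htQ : 0 < t * Q := by linarith
    have hQ0 : 0 < Q := by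
      by_contra hc
      push Not at hc
      have : t * Q ≤ 0 := mul_nonpos_of_nonneg_of_nonpos h0.le hc
      linarith
    have hpw : 0 ≤ (t * Q) ^ (-σ) := (Real.rpow_pos_of_pos htQ _).le
    refine ⟨h.1.trans ?_, h.2.trans ?_⟩
    · have : 0 ≤ (t * Q) ^ (-σ) * Q ^ 3 := by positivity
      rw [mul_assoc, mul_assoc]
      exact mul_le_mul_of_nonneg_right (by linarith) this
    · have : 0 ≤ (t * Q) ^ (-σ) * Q ^ 2 := by positivity
      rw [mul_assoc, mul_assoc]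
      exact mul_le_mul_of_nonneg_right (by linarith) this
  · intro t1 m h0 h1 hm hlow
    have h := S2 n hn T F hFull hRF ⟨t1, h0, h1⟩ m hm (fun z => by
      obtain ⟨y, hy, hy1, -⟩ := hzv z ⟨t1, h0, h1⟩
      rw [hy1]
      exact hlow y hy)
    refine ⟨fun t h2 h3 x hx => ?_, h.2⟩
    obtain ⟨z, hz⟩ := hdx x hx
    have h4 := h.1 z ⟨t, lt_of_lt_of_le h0 h2, h3⟩ h2
    rw [(hz t (lt_of_lt_of_le h0 h2) h3).1] at h4
    exact h4
  · intro t1 Q1 e h0 h1 hQ1 he hup hq hinf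
    have h := hS3 T F hFull hRF ⟨t1, h0, h1⟩ Q1 e hQ1 he
      (fun z t _ => lt_of_lt_of_le hl0 (hCone z t).1)
      (fun z => by
        obtain ⟨y, hy, hy1, -⟩ := hzv z ⟨t1, h0, h1⟩
        rw [hy1]
        exact hup y hy)
      (fun z t htt => by
        obtain ⟨y, hy, hy1, hy2⟩ := hzv z t
        rw [hy1, hy2]
        exact hq t htt t.2.2 y hy)
      (fun C t2 ht2 => by
        obtain ⟨t, x, h3, h4, h5, hx, h6⟩ := hinf C t2 ht2
        obtain ⟨z, hz⟩ := hdx x hx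
        refine ⟨z, ⟨t, h3, h5⟩, h4, ?_⟩
        rw [(hz t h3 h5).1]
        exact h6)
    refine le_trans ?_ h
    have hTt : 0 < T - t1 := by linarith
    refine one_div_le_one_div_of_le ?_ ?_
    · show 0 < (2 + C2 * e) * (T - t1)
      positivity
    · show (2 + C2 * e) * (T - t1) ≤ (2 + C * e) * (T - t1)
      refine mul_le_mul_of_nonneg_right ?_ hTt.le
      have : C2 * e ≤ C * e := mul_le_mul_of_nonneg_right (by linarith) he
      linarith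

end Pool.Agent.Helper90.FLG
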